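import Pool.Agent.Helper594_Ctry.Det
import Pool.Agent.Helper594_Ctry.DSP
import Pool.Agent.Helper594_Ctry.Omega1

/-!
# No small family of lines supplies the common Countryman sublines
-/

set_option autoImplicit false

open Set Cardinal

namespace Pool.Agent.Results.MP_eadc45_lc.NoSmallBasis

open Pool.Agent.Helper594.Ctry

/-- The coding: if every line of the family of the lines of the colourings `g` contains a copy of a
member of the family `C` or of its converse, then the colourings can be coded. -/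
theorem main {ι : Type} (C : ι → Type) [∀ i, LinearOrder (C i)] (hC : ∀ i, Uncountable (C i))
    (h : ∀ (L : Type) [LinearOrder L], IsCountryman L →
      ∃ i, Nonempty (C i ↪o L) ∨ Nonempty ((C i)ᵒᵈ ↪o L)) :
    Nonempty ((Om → Bool) ↪ ((ℕ → ℕ → ι × Bool) × (ℕ → Bool))) := by
  have hW := Om_countable
  have j : ∀ i, Nonempty (Om ↪ C i) := fun i => by
    have := hC i
    exact Om_le_of_uncountable (C i)
  have hg : ∀ g : Om → Bool, ∃ (i : ι) (s : Bool) (X : Om → Om), Function.Injective X ∧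
      ∀ x z, (key (seq g) (X x) < key (seq g) (X z) ↔
        (s = false ∧ (j i).some x < (j i).some z) ∨ (s = true ∧ (j i).some z < (j i).some x)) := by
    intro g
    have hcf := seq_cohFam hW g
    obtain ⟨i, hi⟩ := h (Line (seq g)) (line_countryman hcf)
    let ix : Line (seq g) → Om := fun x => x.2.choose
    have hix : ∀ x : Line (seq g), key (seq g) (ix x) = x.1 := fun x => x.2.choose_spec
    have hixinj : Function.Injective ix := by
      intro x y hxy
      apply Subtype.ext
      rw [← hix x, ← hix y, hxy]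
    rcases hi with ⟨⟨f⟩⟩ | ⟨⟨f⟩⟩
    · refine ⟨i, false, fun x => ix (f ((j i).some x)), ?_, ?_⟩
      · exact hixinj.comp (f.injective.comp (j i).some.injective)
      · intro x z
        rw [hix, hix]
        constructor
        · intro hlt
          left
          exact ⟨rfl, f.lt_iff_lt.1 hlt⟩
        · rintro (⟨-, hlt⟩ | ⟨h', -⟩)
          · exact f.lt_iff_lt.2 hlt
          · exact absurd h' (by decide)
    · refine ⟨i, true, fun x => ix (f (OrderDual.toDual ((j i).some x))), ?_, ?_⟩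
      · exact hixinj.comp (f.injective.comp (OrderDual.toDual.injective.comp
          (j i).some.injective))
      · intro x z
        rw [hix, hix]
        constructor
        · intro hlt
          right
          exact ⟨rfl, f.lt_iff_lt.1 hlt⟩
        · rintro (⟨h', -⟩ | ⟨-, hlt⟩)
          · exact absurd h' (by decide)
          · exact f.lt_iff_lt.2 hlt
  choose wi ws X hX hR using hg
  obtain ⟨a⟩ := Om_embedding
  obtain ⟨v⟩ := Om_prod_embedding
  have := noMax hW
  have he : ∀ δ : Om, Nonempty ({β : Om // β < δ} ↪ ℕ) := by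
    intro δ
    have : Countable {β : Om // β < δ} := (hW δ).to_subtype
    obtain ⟨f, hf⟩ := exists_injective_nat {β : Om // β < δ}
    exact ⟨⟨f, hf⟩⟩
  refine ds_param (V := Om × Bool) (cof_gt hW)
    (fun f hf => IsClub.iInter_of_countable (cof_gt hW).ne' hf) (fun δ => (he δ).some) a v
    (fun g => (wi g, ws g)) (fun g x => (X g x, g x)) (fun g => clubOf hW g (hX g))
    (fun g => clubOf_isClub hW g (hX g)) ?_
  intro g g' hp δ h1 h2 h3
  have hi : wi g = wi g' := congrArg Prod.fst hp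
  have hs : ws g = ws g' := congrArg Prod.snd hp
  refine det hW (hX g) (hX g') ?_ h1 h2 (fun x hx => congrArg Prod.fst (h3 x hx))
    (fun x hx => congrArg Prod.snd (h3 x hx))
  intro x z
  rw [hR, hR, hi, hs]

/-- **No small family of lines supplies the common sublines.** Let `C i`, `i ∈ ι`, be uncountable
linear orders, where `#ι ^ ℵ₀ < 2 ^ ℵ₁` and `2 ^ ℵ₀ < 2 ^ ℵ₁`. Then there is a Countryman line
which contains no copy of `C i` and no copy of the converse of `C i`, for all `i`. -/
theorem result {ι : Type} (C : ι → Type) [∀ i, LinearOrder (C i)] (hC : ∀ i, Uncountable (C i))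
    (h2 : (2 : Cardinal.{0}) ^ ℵ₀ < 2 ^ ℵ₁) (hι : (#ι) ^ ℵ₀ < (2 : Cardinal.{0}) ^ ℵ₁) :
    ∃ (L : Type) (_ : LinearOrder L), IsCountryman L ∧
      ∀ i, IsEmpty (C i ↪o L) ∧ IsEmpty ((C i)ᵒᵈ ↪o L) := by
  by_contra hcon
  have h : ∀ (L : Type) [LinearOrder L], IsCountryman L →
      ∃ i, Nonempty (C i ↪o L) ∨ Nonempty ((C i)ᵒᵈ ↪o L) := by
    intro L inst hL
    by_contra hno
    push Not at hno
    exact hcon ⟨L, inst, hL, fun i => hno i⟩
  obtain ⟨f⟩ := main C hC h
  have h3 : #(Om → Bool) ≤ #((ℕ → ℕ → ι × Bool) × (ℕ → Bool)) := ⟨f⟩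
  have h4 : #(Om → Bool) = 2 ^ ℵ₁ := by
    rw [← Cardinal.power_def, mk_Om]
    simp
  have h5 : #((ℕ → ℕ → ι × Bool) × (ℕ → Bool)) = (#ι) ^ ℵ₀ * 2 ^ ℵ₀ := by
    have e1 : #(ℕ → ℕ → ι × Bool) = (#ι) ^ ℵ₀ * 2 ^ ℵ₀ := by
      rw [← Cardinal.power_def, ← Cardinal.power_def, Cardinal.mk_nat, ← Cardinal.power_mul,
        Cardinal.aleph0_mul_aleph0, ← Cardinal.mul_def, Cardinal.mul_power]
      simp
    have e2 : #(ℕ → Bool) = 2 ^ ℵ₀ := by
      rw [← Cardinal.power_def]
      simp
    have e3 : (2 : Cardinal.{0}) ^ ℵ₀ * 2 ^ ℵ₀ = 2 ^ ℵ₀ := by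
      rw [← Cardinal.power_add, Cardinal.aleph0_add_aleph0]
    rw [← Cardinal.mul_def, e1, e2, mul_assoc, e3]
  rw [h4, h5] at h3
  have h6 : (#ι) ^ ℵ₀ * (2 : Cardinal.{0}) ^ ℵ₀ < 2 ^ ℵ₁ := by
    refine Cardinal.mul_lt_of_lt ?_ hι h2
    have : ℵ₀ < (2 : Cardinal.{0}) ^ ℵ₁ :=
      (Cardinal.aleph0_lt_aleph_one).trans (Cardinal.cantor _)
    exact this.le
  exact absurd h3 (not_le.2 h6)

end Pool.Agent.Results.MP_eadc45_lc.NoSmallBasis
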