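import Pool.Agent.Helper594_Ctry.Signed
import Pool.Agent.Helper594_Ctry.Rand
import Pool.Agent.Helper594_Ctry.Omega1

/-!
# After adding random reals there are incompatible Countryman lines
-/

set_option autoImplicit false

open Set MeasureTheory

namespace Pool.Agent.Results.MP_eadc45_lc.RandomReals

open Pool.Agent.Helper594.Ctry

/-- **Random reals and compatibility.** There are coherent families of finite-to-one functions on
`ω₁`. For every such family `a` the signed lexicographic order `SLine a r` is a Countryman line for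
every sequence of bits `r`. Let the bits `r ω n` be random on a probability space, fair and pairwise
independent. Let the measurable sets `A ξ y` be the values of a name of a partial function which is
strictly increasing, from the line of the random bits to a linear order `J` which is not random.
Then only countably many points belong to the domain with positive probability. -/
theorem result : (∃ a : Om → Om → ℕ, IsCohFam a) ∧ ∀ a : Om → Om → ℕ, IsCohFam a →
    (∀ r : ℕ → Bool, IsCountryman (SLine a r)) ∧
    ∀ (Ω : Type) [MeasurableSpace Ω] (μ : Measure Ω) [IsProbabilityMeasure μ]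
      (r : Ω → ℕ → Bool), (∀ n, Measurable (fun ω => r ω n)) →
      (∀ n, μ {ω | r ω n = true} = 1 / 2) →
      (∀ n m, n ≠ m → μ {ω | r ω n = true ∧ r ω m = true} = 1 / 4) →
      ∀ (J : Type) [LinearOrder J] (A : Om → J → Set Ω), (∀ ξ y, MeasurableSet (A ξ y)) →
        (∀ ξ η y z, ∀ᵐ ω ∂μ, ω ∈ A ξ y → ω ∈ A η z →
          skey a (r ω) ξ < skey a (r ω) η → y < z) →
        {ξ | ∃ y, μ (A ξ y) ≠ 0}.Countable := by
  refine ⟨⟨seq (fun _ => true), ⟨seq_finOne Om_countable _,
    fun _ _ h => seq_coh Om_countable _ h⟩⟩, ?_⟩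
  intro a ha
  refine ⟨fun r => sline_countryman ha r, ?_⟩
  intro Ω _ μ _ r hr hr1 hr2 J _ A hA hmono
  obtain ⟨n, s, hns, hthin⟩ := exists_bits ha
  refine countable_of_bits hr hr1 hr2 (n := n) hthin hA ?_
  intro ξ ζ y z hne
  by_cases hyz : y < z
  · refine ⟨s ξ ζ, ?_⟩
    filter_upwards [hmono ζ ξ z y] with ω h2 h3 h4
    by_contra hcon
    have h5 : ¬ skey a (r ω) ξ < skey a (r ω) ζ := fun h => hcon ((hns ξ ζ hne _).1 h)
    have h6 : skey a (r ω) ζ < skey a (r ω) ξ := by
      rcases lt_trichotomy (skey a (r ω) ξ) (skey a (r ω) ζ) with h | h | h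
      · exact absurd h h5
      · exact absurd (skey_inj a _ h) hne
      · exact h
    exact absurd (h2 h4 h3 h6) (not_lt.2 hyz.le)
  · refine ⟨!s ξ ζ, ?_⟩
    filter_upwards [hmono ξ ζ y z] with ω h2 h3 h4
    by_contra hcon
    have h5 : r ω (n ξ ζ) = s ξ ζ := by
      revert hcon
      cases r ω (n ξ ζ) <;> cases s ξ ζ <;> decide
    exact hyz (h2 h3 h4 ((hns ξ ζ hne _).2 h5))

end Pool.Agent.Results.MP_eadc45_lc.RandomReals
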